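import Mathlib
import Pool.Agent.Helper35.AG.Ent
import Pool.Agent.Helper97.SAG.Decr

/-!
# Entropy of convolutions: cells of large mass

`ent_conv_ge`: `ent μ K - log 2 ≤ ent (conv μ ν) K`.  `ent_conv_of_cell`: if some cell of level `K`
has `ν` mass `a`, then `ent ν K + a * ent μ K - 2 log 2 ≤ ent (conv μ ν) K`.  For measures without
atoms the cells are small and the entropy tends to infinity.
-/

set_option autoImplicit false
open MeasureTheory Filter Topology ProbabilityTheory

namespace Helper40.AG

open Helper35.AG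
open Pool.Agent.Helper97.SAG (integral_split integrable_bdd cond_prob)

theorem conv_comm (μ ν : Measure Tor) [IsProbabilityMeasure μ] [IsProbabilityMeasure ν] :
    conv μ ν = conv ν μ := by
  unfold conv
  rw [← Measure.prod_swap, Measure.map_map (by fun_prop) measurable_swap]
  congr 1
  funext p
  exact add_comm _ _

theorem nml_bdd (x : ℝ) (h0 : 0 ≤ x) (h1 : x ≤ 1) : |Real.negMulLog x| ≤ 1 :=
  Pool.Agent.Helper97.SAG.abs_nml_le x h0 h1

/-- the entropy of a convolution is at least the entropy of the first factor, up to `log 2` -/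
theorem ent_conv_ge (μ ν : Measure Tor) [IsProbabilityMeasure μ] [IsProbabilityMeasure ν] (K : ℕ) :
    ent μ K - Real.log 2 ≤ ent (conv μ ν) K := by
  have hm : ∀ i : ℕ, Measurable fun y : Tor => μ.real {x | idx K (x + y) = i} := fun i =>
    measurable_real μ (measurableSet_idx K i)
  have hI : ∀ i : ℕ, Integrable (fun y : Tor => μ.real {x | idx K (x + y) = i}) ν := fun i =>
    integrable_bdd ν _ (hm i) 1 fun y => by
      rw [abs_of_nonneg measureReal_nonneg]
      exact measureReal_le_one
  have hI' : ∀ i : ℕ, Integrable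
      (fun y : Tor => Real.negMulLog (μ.real {x | idx K (x + y) = i})) ν := fun i =>
    integrable_bdd ν _ (Real.continuous_negMulLog.measurable.comp (hm i)) 1 fun y =>
      nml_bdd _ measureReal_nonneg measureReal_le_one
  calc ent μ K - Real.log 2 = ∫ _y, (ent μ K - Real.log 2) ∂ν := by simp
    _ ≤ ∫ y, ∑ i ∈ Finset.range (2 ^ K), Real.negMulLog (μ.real {x | idx K (x + y) = i}) ∂ν :=
        integral_mono (integrable_const _) (integrable_finsetSum _ fun i _ => hI' i)
          fun y => ent_translate μ K y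
    _ = ∑ i ∈ Finset.range (2 ^ K), ∫ y, Real.negMulLog (μ.real {x | idx K (x + y) = i}) ∂ν :=
        integral_finsetSum _ fun i _ => hI' i
    _ ≤ ∑ i ∈ Finset.range (2 ^ K), Real.negMulLog (∫ y, μ.real {x | idx K (x + y) = i} ∂ν) := by
        refine Finset.sum_le_sum fun i _ => ?_
        exact ConcaveOn.le_map_integral (μ := ν) (f := fun y => μ.real {x | idx K (x + y) = i})
          Real.concaveOn_negMulLog Real.continuous_negMulLog.continuousOn isClosed_Ici
          (Eventually.of_forall fun y => measureReal_nonneg) (hI i)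
          (hI' i)
    _ = ent (conv μ ν) K := by
        unfold ent
        refine Finset.sum_congr rfl fun i _ => ?_
        rw [conv_real μ ν (measurableSet_idx K i)]
        rfl

theorem ent_nonneg (μ : Measure Tor) [IsProbabilityMeasure μ] (K : ℕ) : 0 ≤ ent μ K :=
  Finset.sum_nonneg fun _ _ => Real.negMulLog_nonneg measureReal_nonneg measureReal_le_one

theorem nml_le_mul (a b u v : ℝ) (ha : 0 ≤ a) (hb : 0 ≤ b) (hab : a + b = 1) (hu : 0 ≤ u)
    (hv : 0 ≤ v) :
    a * Real.negMulLog u + b * Real.negMulLog v ≤ Real.negMulLog (a * u + b * v) := by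
  have h := Real.concaveOn_negMulLog.2 (show u ∈ Set.Ici (0 : ℝ) from hu)
    (show v ∈ Set.Ici (0 : ℝ) from hv) ha hb hab
  simpa only [smul_eq_mul] using h

theorem binent_le (a : ℝ) (h0 : 0 ≤ a) (h1 : a ≤ 1) :
    Real.negMulLog a + Real.negMulLog (1 - a) ≤ Real.log 2 := by
  have h := two_le h0 (show 0 ≤ 1 - a by linarith)
  rw [show a + (1 - a) = 1 by ring, Real.negMulLog_one] at h
  linarith

/-- **a cell of mass `a`** -/
theorem ent_conv_of_cell (μ ν : Measure Tor) [IsProbabilityMeasure μ] [IsProbabilityMeasure ν]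
    (K i₀ : ℕ) (hi₀ : i₀ < 2 ^ K) :
    ent ν K + ν.real {y | idx K y = i₀} * ent μ K - 2 * Real.log 2 ≤ ent (conv μ ν) K := by
  obtain ⟨A, hA⟩ : ∃ A : Set Tor, A = {y | idx K y = i₀} := ⟨_, rfl⟩
  have hAm : MeasurableSet A := by rw [hA]; exact measurableSet_idx K i₀
  rw [← hA]
  obtain ⟨a, ha⟩ : ∃ a, a = ν.real A := ⟨_, rfl⟩
  rw [← ha]
  have hl2 : 0 ≤ Real.log 2 := Real.log_nonneg (by norm_num)
  have ha0 : 0 ≤ a := by rw [ha]; exact measureReal_nonneg
  have ha1 : a ≤ 1 := by rw [ha]; exact measureReal_le_one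
  have hμ0 := ent_nonneg μ K
  have hν0 := ent_nonneg ν K
  rcases eq_or_lt_of_le ha0 with h0 | h0
  · rw [← h0, zero_mul, add_zero, conv_comm]
    have := ent_conv_ge ν μ K
    linarith
  rcases eq_or_lt_of_le ha1 with h1 | h1
  · -- all the mass in one cell
    have hz : ent ν K = 0 := by
      unfold ent
      refine Finset.sum_eq_zero fun j _ => ?_
      by_cases hj : j = i₀
      · rw [hj, ← hA, ← ha, h1, Real.negMulLog_one]
      · have h2 : ν.real {y | idx K y = j} = 0 := by
          have h3 : ν.real Aᶜ = 0 := by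
            rw [probReal_compl_eq_one_sub hAm, ← ha, h1, sub_self]
          refine le_antisymm ?_ measureReal_nonneg
          rw [← h3]
          refine measureReal_mono (fun y hy => ?_) (measure_ne_top _ _)
          rw [hA]
          intro h4
          exact hj ((show idx K y = j from hy).symm.trans h4)
        rw [h2, Real.negMulLog_zero]
    rw [hz, h1]
    have := ent_conv_ge μ ν K
    linarith
  -- the general case
  have hc : ν.real Aᶜ = 1 - a := by rw [probReal_compl_eq_one_sub hAm, ← ha]
  have hp1 : IsProbabilityMeasure (ν[|A]) := cond_prob ν (by rw [← ha]; exact h0)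
  have hp2 : IsProbabilityMeasure (ν[|Aᶜ]) := cond_prob ν (by rw [hc]; linarith)
  have hsplit : ∀ j : ℕ, (conv μ ν).real {x | idx K x = j} =
      a * (conv μ (ν[|A])).real {x | idx K x = j} +
        (1 - a) * (conv μ (ν[|Aᶜ])).real {x | idx K x = j} := by
    intro j
    rw [conv_real μ ν (measurableSet_idx K j), conv_real μ (ν[|A]) (measurableSet_idx K j),
      conv_real μ (ν[|Aᶜ]) (measurableSet_idx K j), ha]
    exact integral_split ν hAm _ (integrable_bdd ν _ (measurable_real μ (measurableSet_idx K j)) 1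
      fun y => by
        rw [abs_of_nonneg measureReal_nonneg]
        exact measureReal_le_one)
  have hent : a * ent (conv μ (ν[|A])) K + (1 - a) * ent (conv μ (ν[|Aᶜ])) K ≤
      ent (conv μ ν) K := by
    unfold ent
    rw [Finset.mul_sum, Finset.mul_sum, ← Finset.sum_add_distrib]
    refine Finset.sum_le_sum fun j _ => ?_
    rw [hsplit j]
    exact nml_le_mul a (1 - a) _ _ ha0 (by linarith) (by ring) measureReal_nonneg
      measureReal_nonneg
  have e1 := ent_conv_ge μ (ν[|A]) K
  have e2 := ent_conv_ge (ν[|Aᶜ]) μ K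
  rw [conv_comm] at e2
  -- the entropy of `ν`
  have hreal : ∀ S : Set Tor, (1 - a) * (ν[|Aᶜ]).real S = ν.real (Aᶜ ∩ S) := by
    intro S
    rw [measureReal_def, ProbabilityTheory.cond_apply hAm.compl, ENNReal.toReal_mul,
      ENNReal.toReal_inv, ← measureReal_def, ← measureReal_def, hc, ← mul_assoc,
      mul_inv_cancel₀ (by linarith : (1 - a : ℝ) ≠ 0), one_mul]
  have hcell : ∀ j : ℕ, j ≠ i₀ → ν.real {y | idx K y = j} =
      (1 - a) * (ν[|Aᶜ]).real {y | idx K y = j} := by
    intro j hj
    rw [hreal]
    congr 1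
    ext y
    constructor
    · intro hy
      refine ⟨fun h4 => ?_, hy⟩
      rw [hA] at h4
      exact hj ((show idx K y = j from hy).symm.trans h4)
    · exact fun hy => hy.2
  have hcell0 : (ν[|Aᶜ]).real {y | idx K y = i₀} = 0 := by
    have h5 := hreal {y | idx K y = i₀}
    rw [← hA, Set.compl_inter_self, measureReal_empty] at h5
    rw [← hA]
    rcases mul_eq_zero.1 h5 with h6 | h6
    · linarith
    · exact h6
  have hterm : ∀ j : ℕ, Real.negMulLog (ν.real {y | idx K y = j}) =
      (if j = i₀ then Real.negMulLog a else 0) +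
        ((ν[|Aᶜ]).real {y | idx K y = j} * Real.negMulLog (1 - a) +
          (1 - a) * Real.negMulLog ((ν[|Aᶜ]).real {y | idx K y = j})) := by
    intro j
    by_cases hj : j = i₀
    · rw [if_pos hj, hj, hcell0, ← hA, ← ha, Real.negMulLog_zero]
      ring
    · rw [if_neg hj, hcell j hj, Real.negMulLog_mul]
      ring
  have hνe : ent ν K ≤ Real.log 2 + (1 - a) * ent (ν[|Aᶜ]) K := by
    have e3 : ent ν K = Real.negMulLog a + (Real.negMulLog (1 - a) +
        (1 - a) * ent (ν[|Aᶜ]) K) := by
      unfold ent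
      rw [Finset.sum_congr rfl fun j _ => hterm j, Finset.sum_add_distrib,
        Finset.sum_add_distrib, ← Finset.sum_mul, sum_cells, one_mul, ← Finset.mul_sum,
        Finset.sum_ite_eq', if_pos (Finset.mem_range.2 hi₀)]
    rw [e3]
    have := binent_le a ha0 ha1
    linarith
  nlinarith [mul_nonneg ha0 hl2]

end Helper40.AG
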