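import Mathlib
import Pool.Agent.Helper40.AG.Ruzsa
import Pool.Agent.Helper40.LPA.Trace
import Pool.Agent.Helper39.SAG.Main

/-!
# Additive growth for extreme traces

For an extreme trace with measure `μ` on the circle: the trace is the regular one if and only if, for
some `C`, convolution with measures whose cells are arbitrarily small raises the entropy by at most
`C`; for conditionally infinite dimensional traces this is also equivalent to bounded growth (for
infinitely many scales) of the convolution square, and to bounded entropic Ruzsa distance to some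
measure at infinitely many scales.
-/

set_option autoImplicit false
open MeasureTheory Filter Topology

namespace Helper40.AG

open Helper35.AG (Tor idx ent conv Inv conv_prob)

/-- balls of small radius have small mass for a measure without atoms -/
theorem exists_ball_le (ν : Measure Tor) [IsProbabilityMeasure ν] (h0 : ∀ x, ν {x} = 0)
    {η : ℝ} (hη : 0 < η) : ∃ r : ℝ, 0 < r ∧ ∀ x, ν.real (Metric.closedBall x r) ≤ η := by
  by_contra hcon
  push Not at hcon
  have h1 : ∀ n : ℕ, ∃ x : Tor, η < ν.real (Metric.closedBall x (1 / (n + 1))) := fun n =>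
    hcon _ (by positivity)
  choose x hx using h1
  obtain ⟨y, -, φ, hφ, hlim⟩ := isCompact_univ.tendsto_subseq fun n => Set.mem_univ (x n)
  have h2 : ∀ r : ℝ, 0 < r → η ≤ ν.real (Metric.closedBall y r) := by
    intro r hr
    have h3 : ∀ᶠ n in atTop, dist (x (φ n)) y < r / 2 :=
      (tendsto_iff_dist_tendsto_zero.1 hlim).eventually (gt_mem_nhds (by linarith))
    have h4 : ∀ᶠ n : ℕ in atTop, (1 : ℝ) / ((φ n : ℝ) + 1) < r / 2 := by
      have h5 : Tendsto (fun n : ℕ => (1 : ℝ) / ((φ n : ℝ) + 1)) atTop (𝓝 0) :=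
        tendsto_one_div_add_atTop_nhds_zero_nat.comp hφ.tendsto_atTop
      exact h5.eventually (gt_mem_nhds (by linarith))
    obtain ⟨n, h5, h6⟩ := (h3.and h4).exists
    refine (hx (φ n)).le.trans (measureReal_mono ?_ (measure_ne_top _ _))
    intro z hz
    rw [Metric.mem_closedBall] at hz ⊢
    have := dist_triangle z (x (φ n)) y
    linarith
  have h3 : Tendsto (fun n : ℕ => ν.real (Metric.closedBall y (1 / ((n : ℝ) + 1)))) atTop
      (𝓝 (ν.real {y})) := by
    have h4 : (⋂ n : ℕ, Metric.closedBall y (1 / ((n : ℝ) + 1))) = {y} := by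
      ext z
      rw [Set.mem_iInter, Set.mem_singleton_iff]
      constructor
      · intro hz
        rw [← dist_le_zero]
        refine ge_of_tendsto' tendsto_one_div_add_atTop_nhds_zero_nat fun n => ?_
        exact Metric.mem_closedBall.1 (hz n)
      · rintro rfl n
        exact Metric.mem_closedBall_self (by positivity)
    have h5 := tendsto_measure_iInter_atTop (μ := ν)
      (s := fun n : ℕ => Metric.closedBall y (1 / ((n : ℝ) + 1)))
      (fun n => Metric.isClosed_closedBall.measurableSet.nullMeasurableSet)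
      (fun m n hmn => Metric.closedBall_subset_closedBall (by
        apply one_div_le_one_div_of_le (by positivity)
        have : (m : ℝ) ≤ n := by exact_mod_cast hmn
        linarith)) ⟨0, measure_ne_top _ _⟩
    rw [h4] at h5
    exact (ENNReal.tendsto_toReal (measure_ne_top _ _)).comp h5
  have h4 : η ≤ ν.real {y} := ge_of_tendsto' h3 fun n => h2 _ (by positivity)
  rw [measureReal_def, h0 y] at h4
  simp at h4
  linarith

/-- the cells of a measure without atoms are small -/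
theorem exists_cells_le (ν : Measure Tor) [IsProbabilityMeasure ν] (h0 : ∀ x, ν {x} = 0)
    {η : ℝ} (hη : 0 < η) : ∃ K₀ : ℕ, ∀ K, K₀ ≤ K → ∀ i, ν.real {y | idx K y = i} ≤ η := by
  obtain ⟨r, hr, h⟩ := exists_ball_le ν h0 hη
  obtain ⟨K₀, hK₀⟩ := exists_pow_lt_of_lt_one hr (show (1 / 2 : ℝ) < 1 by norm_num)
  refine ⟨K₀, fun K hK i => ?_⟩
  by_cases hne : ∃ x : Tor, idx K x = i
  · obtain ⟨x, hx⟩ := hne
    refine (measureReal_mono (fun y hy => ?_) (measure_ne_top _ _)).trans (h x)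
    rw [Metric.mem_closedBall, dist_eq_norm]
    have h1 := Helper35.AG.norm_sub_le_of_idx (K := K) (x := y) (y := x)
      ((show idx K y = i from hy).trans hx.symm)
    refine h1.trans ?_
    have h2 : (1 : ℝ) / 2 ^ K = (1 / 2) ^ K := by rw [one_div_pow]
    rw [h2]
    exact (pow_le_pow_of_le_one (by norm_num) (by norm_num) hK).trans hK₀.le
  · have : {y : Tor | idx K y = i} = ∅ := by
      ext y
      simp only [Set.mem_ofPred_eq, Set.mem_empty_iff_false, iff_false]
      exact fun hy => hne ⟨y, hy⟩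
    rw [this, measureReal_empty]
    exact hη.le

/-- small cells give large entropy -/
theorem log_le_ent (μ : Measure Tor) [IsProbabilityMeasure μ] (K : ℕ) {η : ℝ} (hη : 0 < η)
    (h : ∀ i, μ.real {y | idx K y = i} ≤ η) : Real.log (1 / η) ≤ ent μ K := by
  have h1 : Real.log (1 / η) = ∑ i ∈ Finset.range (2 ^ K),
      μ.real {y | idx K y = i} * Real.log (1 / η) := by
    rw [← Finset.sum_mul, Helper35.AG.sum_cells, one_mul]
  rw [h1]
  unfold ent
  refine Finset.sum_le_sum fun i _ => ?_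
  rcases eq_or_lt_of_le (measureReal_nonneg (μ := μ) (s := {y | idx K y = i})) with h2 | h2
  · rw [← h2]
    simp
  · rw [Real.negMulLog, neg_mul, ← mul_neg, ← Real.log_inv]
    refine mul_le_mul_of_nonneg_left ?_ h2.le
    apply Real.log_le_log (by positivity)
    rw [one_div]
    exact inv_anti₀ h2 (h i)

/-- the entropy of a measure without atoms tends to infinity -/
theorem exists_ent_ge (μ : Measure Tor) [IsProbabilityMeasure μ] (h0 : ∀ x, μ {x} = 0) (B : ℝ) :
    ∃ K₀ : ℕ, ∀ K, K₀ ≤ K → B ≤ ent μ K := by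
  obtain ⟨K₀, h⟩ := exists_cells_le μ h0 (Real.exp_pos (-B))
  refine ⟨K₀, fun K hK => ?_⟩
  have h1 := log_le_ent μ K (Real.exp_pos (-B)) (h K hK)
  rwa [one_div, ← Real.exp_neg, neg_neg, Real.log_exp] at h1

/-- bounded growth under convolution with measures of arbitrarily small cells -/
theorem zero_of_spread {μ : Measure Tor} [IsProbabilityMeasure μ] (hμ : Inv μ) {C : ℝ}
    (h : ∀ η : ℝ, 0 < η → ∃ (K : ℕ) (ν : Measure Tor), IsProbabilityMeasure ν ∧
      (∀ i < 2 ^ K, ν.real {y | idx K y = i} ≤ η) ∧ ent (conv μ ν) K ≤ ent μ K + C)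
    (m : ℕ) (hm : 1 ≤ m) : ∫ x, (fourier (m : ℤ) x : ℂ) ∂μ = 0 := by
  by_contra hne
  have hpos : 0 < ‖∫ x, (fourier (m : ℤ) x : ℂ) ∂μ‖ := norm_pos_iff.2 hne
  obtain ⟨ε, hε⟩ : ∃ ε, ε = min (1 / (m : ℝ)) (‖∫ x, (fourier (m : ℤ) x : ℂ) ∂μ‖ / 2) := ⟨_, rfl⟩
  have hm0 : (0 : ℝ) < m := by exact_mod_cast hm
  have hε0 : 0 < ε := by
    rw [hε]
    exact lt_min (by positivity) (by linarith)
  obtain ⟨η, hη, hη'⟩ := Helper39.SAG.sag C hε0
  obtain ⟨K, ν, hν, h1, h2⟩ := h η hη
  have h3 := hη' μ ν K hμ h1 h2 m hm (by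
    rw [le_div_iff₀ hε0, ← le_div_iff₀' hm0]
    rw [hε]
    exact min_le_left _ _)
  have h4 : ε ≤ ‖∫ x, (fourier (m : ℤ) x : ℂ) ∂μ‖ / 2 := by
    rw [hε]
    exact min_le_right _ _
  linarith

/-- the same for a Ruzsa distance bounded at infinitely many scales -/
theorem zero_of_ruzsa {μ : Measure Tor} [IsProbabilityMeasure μ] (hμ : Inv μ)
    (h0 : ∀ x, μ {x} = 0) {C : ℝ}
    (h : ∃ᶠ K in atTop, ∃ ν : Measure Tor, IsProbabilityMeasure ν ∧
      ent (conv μ ν) K ≤ (ent μ K + ent ν K) / 2 + C)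
    (m : ℕ) (hm : 1 ≤ m) : ∫ x, (fourier (m : ℤ) x : ℂ) ∂μ = 0 := by
  refine zero_of_spread (C := 2 * C + Real.log 2) hμ (fun η hη => ?_) m hm
  obtain ⟨K₀, hK₀⟩ := exists_ent_ge μ h0 ((2 * C + 3 * Real.log 2 + 1) / η)
  obtain ⟨K, hK, ν, hν, h1⟩ := frequently_atTop.1 h K₀
  have h2 := hK₀ K hK
  have h3 := ent_conv_ge μ ν K
  have h4 := ent_conv_ge ν μ K
  rw [conv_comm] at h4
  refine ⟨K, ν, hν, fun i hi => ?_, by linarith⟩
  by_contra hcon
  push Not at hcon
  have h5 := ent_conv_of_cell μ ν K i hi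
  rw [div_le_iff₀ hη] at h2
  have h6 : η * ent μ K ≤ ν.real {y | idx K y = i} * ent μ K :=
    mul_le_mul_of_nonneg_right hcon.le (ent_nonneg μ K)
  linarith

/-- the convolution square of Lebesgue measure -/
theorem conv_volume (ν : Measure Tor) [IsProbabilityMeasure ν] :
    conv (volume : Measure Tor) ν = volume := by
  have hp : IsProbabilityMeasure (conv (volume : Measure Tor) ν) := conv_prob _ _
  ext A hA
  have hm : Measurable fun p : Tor × Tor => p.1 + p.2 := by fun_prop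
  unfold conv
  rw [Measure.map_apply hm hA, Measure.prod_apply_symm (hm hA)]
  have h1 : ∀ y : Tor, (volume : Measure Tor) ((fun x => (x, y)) ⁻¹'
      ((fun p : Tor × Tor => p.1 + p.2) ⁻¹' A)) = volume A := fun y =>
    measure_preimage_add_right volume y A
  simp_rw [h1]
  simp

/-! ### traces -/

section Traces

open Helper17.FU Helper17.FUGroup
open Helper91.TTT hiding Tor
open scoped ComplexOrder InnerProductSpace

variable {s2 s3 t : Equiv.Perm ℚ}

/-- vanishing coefficients: Lebesgue measure -/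
theorem eq_volume {μ : Measure Tor} [IsProbabilityMeasure μ]
    (hz : ∀ m : ℕ, 1 ≤ m → ∫ x, (fourier (m : ℤ) x : ℂ) ∂μ = 0) : μ = volume := by
  apply Helper17.TranslM.eq_of_fourier
  intro n
  rcases lt_trichotomy n 0 with h | h | h
  · have h5 := hz (-n).toNat (by omega)
    rw [show (((-n).toNat : ℕ) : ℤ) = -n by omega] at h5
    have h6 : ∫ x, (fourier n x : ℂ) ∂μ = star (∫ x, (fourier (-n) x : ℂ) ∂μ) := by
      rw [RCLike.star_def, ← integral_conj]
      refine integral_congr_ae (Eventually.of_forall fun x => ?_)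
      simp only [fourier_neg, RingHomCompTriple.comp_apply, RingHom.id_apply]
    rw [h6, h5, star_zero, Pool.Agent.Helper40.LPA.integral_fourier_volume n (by omega)]
  · rw [h]
    simp
  · have h5 := hz n.toNat (by omega)
    rw [show ((n.toNat : ℕ) : ℤ) = n by omega] at h5
    rw [h5, Pool.Agent.Helper40.LPA.integral_fourier_volume n (by omega)]

/-- Lebesgue measure has no atoms -/
theorem volume_singleton (x : Tor) : (volume : Measure Tor) {x} = 0 := by
  refine le_antisymm ?_ zero_le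
  calc (volume : Measure Tor) {x} ≤ volume (Metric.closedBall x 0) :=
        measure_mono (by
          intro y hy
          rw [Set.mem_singleton_iff] at hy
          rw [hy]
          exact Metric.mem_closedBall_self le_rfl)
    _ = 0 := by
        rw [AddCircle.volume_closedBall]
        simp

/-- the regular trace is the one with vanishing coefficients -/
theorem regular_iff (h2 : ∀ x : ℚ, s2 x = 2 * x) (h3 : ∀ x : ℚ, s3 x = 3 * x)
    (ht : ∀ x : ℚ, t x = x + 1) {τ : GG s2 s3 t} (hτ : (τ : Equiv.Perm ℚ) = t)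
    {φ : GG s2 s3 t → ℂ} (hφ : φ ∈ Set.extremePoints ℝ (TR (GG s2 s3 t)))
    {μ : Measure Tor} [IsProbabilityMeasure μ]
    (hμ : ∀ n : ℤ, ∫ x, (fourier n x : ℂ) ∂μ = φ (τ ^ n)) :
    φ = Set.indicator ({1} : Set (GG s2 s3 t)) (fun _ => (1 : ℂ)) ↔
      ∀ m : ℕ, 1 ≤ m → ∫ x, (fourier (m : ℤ) x : ℂ) ∂μ = 0 := by
  constructor
  · intro hΔ m hm
    rw [hμ]
    exact Pool.Agent.Helper40.TMA.zero_of_regular ht hτ hΔ m hm
  · intro hz
    by_contra hΔ
    refine Pool.Agent.Helper40.TMA.false_of_zero h2 h3 ht hτ hφ hμ hΔ (fun hfd => ?_) hz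
    obtain ⟨Z, hZ, hZμ⟩ := Pool.Agent.Helper40.LPA.finite_of_fd ht hτ hμ hfd
    have hZ0 : μ Z = 0 := by
      rw [eq_volume hz, ← Set.biUnion_of_singleton Z, measure_biUnion_null_iff hZ.countable]
      exact fun x _ => volume_singleton x
    have h5 : μ Set.univ = 0 := by
      rw [← Set.union_compl_self Z]
      exact measure_union_null hZ0 hZμ
    rw [measure_univ] at h5
    exact one_ne_zero h5

/-- **Growth under spread measures.**  For every extreme trace. -/
theorem tfae_spread (h2 : ∀ x : ℚ, s2 x = 2 * x) (h3 : ∀ x : ℚ, s3 x = 3 * x)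
    (ht : ∀ x : ℚ, t x = x + 1) {τ : GG s2 s3 t} (hτ : (τ : Equiv.Perm ℚ) = t)
    {φ : GG s2 s3 t → ℂ} (hφ : φ ∈ Set.extremePoints ℝ (TR (GG s2 s3 t)))
    {μ : Measure Tor} [IsProbabilityMeasure μ] (hinv : Inv μ)
    (hμ : ∀ n : ℤ, ∫ x, (fourier n x : ℂ) ∂μ = φ (τ ^ n)) :
    List.TFAE [
      φ = Set.indicator ({1} : Set (GG s2 s3 t)) (fun _ => (1 : ℂ)),
      ∃ ν : Measure Tor, IsProbabilityMeasure ν ∧ (∀ x, ν {x} = 0) ∧ ∃ C : ℝ,
        ∀ K : ℕ, ent (conv μ ν) K ≤ ent μ K + C,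
      ∃ ν : Measure Tor, IsProbabilityMeasure ν ∧ (∀ x, ν {x} = 0) ∧ ∃ C : ℝ,
        ∃ᶠ K in atTop, ent (conv μ ν) K ≤ ent μ K + C,
      ∃ C : ℝ, ∀ η : ℝ, 0 < η → ∃ (K : ℕ) (ν : Measure Tor), IsProbabilityMeasure ν ∧
        (∀ i < 2 ^ K, ν.real {y | idx K y = i} ≤ η) ∧ ent (conv μ ν) K ≤ ent μ K + C] := by
  tfae_have 1 → 2 := by
    intro hΔ
    have hvol := eq_volume ((regular_iff h2 h3 ht hτ hφ hμ).1 hΔ)
    refine ⟨volume, inferInstance, volume_singleton, 0, fun K => ?_⟩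
    rw [hvol, conv_volume, add_zero]
  tfae_have 2 → 3 := by
    rintro ⟨ν, hν, h0, C, h⟩
    exact ⟨ν, hν, h0, C, (Eventually.of_forall h).frequently⟩
  tfae_have 3 → 4 := by
    rintro ⟨ν, hν, h0, C, h⟩
    refine ⟨C, fun η hη => ?_⟩
    obtain ⟨K₀, hK₀⟩ := exists_cells_le ν h0 hη
    obtain ⟨K, hK, h5⟩ := frequently_atTop.1 h K₀
    exact ⟨K, ν, hν, fun i _ => hK₀ K hK i, h5⟩
  tfae_have 4 → 1 := by
    rintro ⟨C, h⟩
    exact (regular_iff h2 h3 ht hτ hφ hμ).2 fun m hm => zero_of_spread hinv h m hm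
  tfae_finish

/-- **Growth of the convolution square and Ruzsa distances.**  For extreme traces of infinite
dimension. -/
theorem tfae_square (h2 : ∀ x : ℚ, s2 x = 2 * x) (h3 : ∀ x : ℚ, s3 x = 3 * x)
    (ht : ∀ x : ℚ, t x = x + 1) {τ : GG s2 s3 t} (hτ : (τ : Equiv.Perm ℚ) = t)
    {φ : GG s2 s3 t → ℂ} (hφ : φ ∈ Set.extremePoints ℝ (TR (GG s2 s3 t)))
    {μ : Measure Tor} [IsProbabilityMeasure μ] (hinv : Inv μ)
    (hμ : ∀ n : ℤ, ∫ x, (fourier n x : ℂ) ∂μ = φ (τ ^ n))
    (hfd : ¬ FiniteDimensional ℂ (Submodule.span ℂ {F : GG s2 s3 t → ℂ | ∃ n : GG s2 s3 t,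
      IsTr n ∧ F = fun x => φ (n * x)})) :
    List.TFAE [
      φ = Set.indicator ({1} : Set (GG s2 s3 t)) (fun _ => (1 : ℂ)),
      ∃ C : ℝ, ∀ K : ℕ, ent (conv μ μ) K ≤ ent μ K + C,
      ∃ C : ℝ, ∃ᶠ K in atTop, ent (conv μ μ) K ≤ ent μ K + C,
      ∃ C : ℝ, ∃ᶠ K in atTop, ∃ ν : Measure Tor, IsProbabilityMeasure ν ∧
        ent (conv μ ν) K ≤ (ent μ K + ent ν K) / 2 + C] := by
  have h0 := Pool.Agent.Helper40.LPA.no_atoms_of_infinite h2 h3 ht hτ hφ hμ hfd
  tfae_have 1 → 2 := by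
    intro hΔ
    have hvol := eq_volume ((regular_iff h2 h3 ht hτ hφ hμ).1 hΔ)
    refine ⟨0, fun K => ?_⟩
    rw [hvol, conv_volume, add_zero]
  tfae_have 2 → 3 := by
    rintro ⟨C, h⟩
    exact ⟨C, (Eventually.of_forall h).frequently⟩
  tfae_have 3 → 4 := by
    rintro ⟨C, h⟩
    refine ⟨C, h.mono fun K hK => ⟨μ, inferInstance, ?_⟩⟩
    linarith
  tfae_have 4 → 1 := by
    rintro ⟨C, h⟩
    exact (regular_iff h2 h3 ht hτ hφ hμ).2 fun m hm => zero_of_ruzsa hinv h0 h m hm
  tfae_finish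

end Traces

end Helper40.AG
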